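import Pool.Agent.Q109.SW.Sound

set_option autoImplicit false

/-!
Certificates.
-/

namespace Pool.Agent.Q109.SO

def vtw : Cert where
  k := 2
  cmp := []
  free := [(0, 1)]
  comp := [(0, 1, [])]
  lam := [(0, 1, 1)]
  flow := [
    ⟨[0, 1], [1, 0], 0, 1, 9⟩]

theorem vtw_ok : checkq 9 25 vtw = true := by decide +kernel

def vL10 : Cert where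
  k := 5
  cmp := [(0, 2), (0, 3), (0, 4), (1, 4), (2, 4)]
  free := [(0, 1), (1, 2), (1, 3), (2, 3), (3, 4)]
  comp := [(1, 2, [0]), (2, 3, [4])]
  lam := [(1, 2, 3), (2, 3, 8)]
  flow := [
    ⟨[0, 1, 2, 4, 3], [0, 1, 2, 3, 4], 3, 4, 225⟩,
    ⟨[1, 0, 2, 4, 3], [0, 1, 2, 4, 3], 0, 1, 100⟩,
    ⟨[0, 1, 2, 3, 4], [0, 1, 3, 2, 4], 2, 3, 101⟩,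
    ⟨[0, 2, 1, 3, 4], [0, 2, 3, 1, 4], 2, 3, 247⟩,
    ⟨[0, 1, 2, 3, 4], [0, 2, 1, 3, 4], 1, 2, 223⟩,
    ⟨[0, 2, 3, 1, 4], [0, 3, 2, 1, 4], 1, 2, 146⟩,
    ⟨[0, 3, 1, 2, 4], [0, 3, 2, 1, 4], 2, 3, 24⟩,
    ⟨[0, 2, 1, 4, 3], [0, 1, 2, 4, 3], 1, 2, 24⟩,
    ⟨[1, 0, 2, 3, 4], [1, 0, 3, 2, 4], 2, 3, 99⟩]

theorem vL10_ok : checkq 9 25 vL10 = true := by decide +kernel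

def vL01 : Cert where
  k := 5
  cmp := [(0, 3), (0, 4), (1, 4)]
  free := [(0, 1), (0, 2), (1, 2), (1, 3), (2, 3), (2, 4), (3, 4)]
  comp := [(2, 3, [0]), (3, 4, [1])]
  lam := [(2, 3, 10), (3, 4, 21)]
  flow := [
    ⟨[0, 2, 1, 3, 4], [0, 1, 2, 3, 4], 1, 2, 525⟩,
    ⟨[0, 3, 1, 2, 4], [0, 2, 1, 3, 4], 1, 3, 350⟩,
    ⟨[1, 2, 0, 3, 4], [1, 0, 2, 3, 4], 1, 2, 450⟩,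
    ⟨[1, 3, 0, 2, 4], [1, 2, 0, 3, 4], 1, 3, 300⟩,
    ⟨[2, 0, 1, 3, 4], [1, 0, 2, 3, 4], 0, 2, 75⟩,
    ⟨[2, 1, 0, 3, 4], [1, 2, 0, 3, 4], 0, 1, 75⟩,
    ⟨[0, 1, 2, 3, 4], [0, 1, 2, 4, 3], 3, 4, 246⟩,
    ⟨[0, 1, 3, 2, 4], [0, 1, 3, 4, 2], 3, 4, 587⟩,
    ⟨[0, 1, 2, 3, 4], [0, 1, 3, 2, 4], 2, 3, 558⟩,
    ⟨[0, 1, 3, 4, 2], [0, 1, 4, 3, 2], 2, 3, 341⟩,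
    ⟨[0, 1, 4, 2, 3], [0, 1, 4, 3, 2], 3, 4, 29⟩,
    ⟨[0, 2, 1, 3, 4], [0, 2, 1, 4, 3], 3, 4, 133⟩,
    ⟨[0, 2, 3, 1, 4], [0, 2, 1, 3, 4], 2, 3, 29⟩,
    ⟨[0, 2, 4, 1, 3], [0, 2, 1, 4, 3], 2, 3, 29⟩,
    ⟨[0, 3, 2, 1, 4], [0, 3, 1, 2, 4], 2, 3, 29⟩,
    ⟨[1, 0, 2, 3, 4], [1, 0, 2, 4, 3], 3, 4, 246⟩,
    ⟨[1, 0, 3, 2, 4], [1, 0, 3, 4, 2], 3, 4, 587⟩,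
    ⟨[1, 0, 2, 3, 4], [1, 0, 3, 2, 4], 2, 3, 558⟩,
    ⟨[1, 0, 3, 4, 2], [1, 0, 4, 3, 2], 2, 3, 341⟩,
    ⟨[1, 0, 4, 2, 3], [1, 0, 4, 3, 2], 3, 4, 29⟩,
    ⟨[1, 2, 0, 3, 4], [1, 2, 0, 4, 3], 3, 4, 204⟩,
    ⟨[2, 0, 1, 3, 4], [2, 0, 1, 4, 3], 3, 4, 204⟩,
    ⟨[2, 1, 0, 3, 4], [2, 1, 0, 4, 3], 3, 4, 204⟩]

theorem vL01_ok : checkq 9 25 vL01 = true := by decide +kernel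

def vL11 : Cert where
  k := 6
  cmp := [(0, 3), (0, 4), (0, 5), (1, 4), (1, 5), (2, 5), (3, 5)]
  free := [(0, 1), (0, 2), (1, 2), (1, 3), (2, 3), (2, 4), (3, 4), (4, 5)]
  comp := [(2, 3, [0]), (3, 4, [1, 5])]
  lam := [(0, 1, 9), (1, 2, 7), (2, 3, 42)]
  flow := [
    ⟨[0, 2, 1, 3, 5, 4], [0, 2, 1, 3, 4, 5], 4, 5, 125⟩,
    ⟨[1, 0, 2, 3, 5, 4], [1, 0, 2, 3, 4, 5], 4, 5, 25⟩,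
    ⟨[1, 2, 0, 3, 4, 5], [0, 2, 1, 3, 4, 5], 0, 2, 225⟩,
    ⟨[1, 2, 0, 3, 4, 5], [1, 0, 2, 3, 4, 5], 1, 2, 725⟩,
    ⟨[1, 2, 0, 3, 5, 4], [1, 0, 2, 3, 5, 4], 1, 2, 475⟩,
    ⟨[1, 3, 0, 2, 4, 5], [0, 3, 1, 2, 4, 5], 0, 2, 350⟩,
    ⟨[1, 3, 0, 2, 5, 4], [0, 3, 1, 2, 5, 4], 0, 2, 350⟩,
    ⟨[2, 0, 1, 3, 4, 5], [1, 0, 2, 3, 4, 5], 0, 2, 600⟩,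
    ⟨[2, 0, 1, 3, 5, 4], [0, 2, 1, 3, 5, 4], 0, 1, 300⟩,
    ⟨[2, 1, 0, 3, 4, 5], [1, 2, 0, 3, 4, 5], 0, 1, 250⟩,
    ⟨[2, 1, 0, 3, 5, 4], [1, 2, 0, 3, 5, 4], 0, 1, 125⟩,
    ⟨[0, 1, 2, 3, 4, 5], [0, 1, 3, 2, 4, 5], 2, 3, 522⟩,
    ⟨[0, 1, 2, 4, 3, 5], [0, 1, 4, 2, 3, 5], 2, 3, 522⟩,
    ⟨[0, 1, 3, 4, 2, 5], [0, 1, 3, 2, 4, 5], 3, 4, 6⟩,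
    ⟨[0, 1, 3, 4, 2, 5], [0, 1, 4, 3, 2, 5], 2, 3, 516⟩,
    ⟨[0, 1, 2, 3, 5, 4], [0, 1, 3, 2, 5, 4], 2, 3, 522⟩,
    ⟨[0, 2, 1, 3, 4, 5], [0, 2, 3, 1, 4, 5], 2, 3, 528⟩,
    ⟨[0, 2, 1, 4, 3, 5], [0, 2, 4, 1, 3, 5], 2, 3, 516⟩,
    ⟨[0, 2, 1, 3, 4, 5], [0, 2, 1, 4, 3, 5], 3, 4, 169⟩,
    ⟨[0, 2, 1, 3, 5, 4], [0, 2, 3, 1, 5, 4], 2, 3, 522⟩,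
    ⟨[0, 3, 1, 2, 4, 5], [0, 3, 2, 1, 4, 5], 2, 3, 697⟩,
    ⟨[0, 3, 1, 2, 5, 4], [0, 3, 2, 1, 5, 4], 2, 3, 697⟩,
    ⟨[1, 0, 2, 3, 4, 5], [1, 0, 3, 2, 4, 5], 2, 3, 894⟩,
    ⟨[1, 0, 2, 4, 3, 5], [1, 0, 4, 2, 3, 5], 2, 3, 1050⟩,
    ⟨[1, 0, 2, 3, 4, 5], [1, 0, 2, 4, 3, 5], 3, 4, 753⟩,
    ⟨[1, 0, 3, 4, 2, 5], [1, 0, 4, 3, 2, 5], 2, 3, 438⟩,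
    ⟨[1, 0, 3, 2, 4, 5], [1, 0, 3, 4, 2, 5], 3, 4, 141⟩,
    ⟨[1, 0, 4, 2, 3, 5], [1, 0, 4, 3, 2, 5], 3, 4, 297⟩,
    ⟨[1, 0, 2, 3, 5, 4], [1, 0, 3, 2, 5, 4], 2, 3, 747⟩,
    ⟨[1, 2, 0, 4, 3, 5], [1, 2, 0, 3, 4, 5], 3, 4, 347⟩,
    ⟨[2, 0, 1, 4, 3, 5], [2, 0, 1, 3, 4, 5], 3, 4, 297⟩,
    ⟨[2, 1, 0, 4, 3, 5], [2, 1, 0, 3, 4, 5], 3, 4, 122⟩]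

theorem vL11_ok : checkq 9 25 vL11 = true := by decide +kernel

def vR10 : Cert where
  k := 5
  cmp := [(0, 3), (0, 4), (1, 4)]
  free := [(0, 1), (0, 2), (1, 2), (1, 3), (2, 3), (2, 4), (3, 4)]
  comp := [(0, 1, [3]), (1, 2, [4])]
  lam := [(0, 1, 21), (1, 2, 10)]
  flow := [
    ⟨[0, 1, 3, 2, 4], [0, 1, 2, 3, 4], 2, 3, 525⟩,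
    ⟨[0, 1, 3, 4, 2], [0, 1, 2, 4, 3], 2, 4, 150⟩,
    ⟨[0, 1, 4, 2, 3], [0, 1, 2, 4, 3], 2, 3, 375⟩,
    ⟨[0, 1, 4, 3, 2], [0, 1, 3, 4, 2], 2, 3, 75⟩,
    ⟨[0, 2, 3, 1, 4], [0, 1, 3, 2, 4], 1, 3, 350⟩,
    ⟨[0, 2, 4, 1, 3], [0, 1, 4, 2, 3], 1, 3, 300⟩,
    ⟨[0, 1, 2, 3, 4], [1, 0, 2, 3, 4], 0, 1, 558⟩,
    ⟨[0, 2, 1, 3, 4], [2, 0, 1, 3, 4], 0, 1, 275⟩,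
    ⟨[0, 1, 2, 3, 4], [0, 2, 1, 3, 4], 1, 2, 246⟩,
    ⟨[1, 2, 0, 3, 4], [2, 1, 0, 3, 4], 0, 1, 341⟩,
    ⟨[1, 0, 2, 3, 4], [1, 2, 0, 3, 4], 1, 2, 312⟩,
    ⟨[2, 0, 1, 3, 4], [2, 1, 0, 3, 4], 1, 2, 29⟩,
    ⟨[0, 1, 2, 4, 3], [1, 0, 2, 4, 3], 0, 1, 558⟩,
    ⟨[0, 2, 1, 4, 3], [2, 0, 1, 4, 3], 0, 1, 275⟩,
    ⟨[0, 1, 2, 4, 3], [0, 2, 1, 4, 3], 1, 2, 246⟩,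
    ⟨[1, 2, 0, 4, 3], [2, 1, 0, 4, 3], 0, 1, 341⟩,
    ⟨[1, 0, 2, 4, 3], [1, 2, 0, 4, 3], 1, 2, 312⟩,
    ⟨[2, 0, 1, 4, 3], [2, 1, 0, 4, 3], 1, 2, 29⟩,
    ⟨[0, 1, 3, 2, 4], [1, 0, 3, 2, 4], 0, 1, 133⟩,
    ⟨[0, 3, 1, 2, 4], [0, 1, 3, 2, 4], 1, 2, 29⟩,
    ⟨[1, 3, 0, 2, 4], [1, 0, 3, 2, 4], 1, 2, 29⟩,
    ⟨[0, 1, 3, 4, 2], [1, 0, 3, 4, 2], 0, 1, 204⟩,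
    ⟨[0, 1, 4, 2, 3], [1, 0, 4, 2, 3], 0, 1, 204⟩,
    ⟨[0, 1, 4, 3, 2], [1, 0, 4, 3, 2], 0, 1, 204⟩,
    ⟨[0, 3, 2, 1, 4], [0, 2, 3, 1, 4], 1, 2, 29⟩]

theorem vR10_ok : checkq 9 25 vR10 = true := by decide +kernel

def vR20 : Cert where
  k := 6
  cmp := [(0, 3), (0, 4), (0, 5), (1, 4), (1, 5)]
  free := [(0, 1), (0, 2), (1, 2), (1, 3), (2, 3), (2, 4), (2, 5), (3, 4), (3, 5), (4, 5)]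
  comp := [(0, 1, [3]), (1, 2, [4, 5])]
  lam := [(0, 1, 9), (1, 2, 4)]
  flow := [
    ⟨[0, 1, 2, 4, 5, 3], [0, 1, 2, 4, 3, 5], 4, 5, 25⟩,
    ⟨[0, 1, 2, 5, 4, 3], [0, 1, 2, 4, 5, 3], 3, 4, 50⟩,
    ⟨[0, 1, 2, 5, 4, 3], [0, 1, 2, 5, 3, 4], 4, 5, 25⟩,
    ⟨[0, 1, 3, 2, 4, 5], [0, 1, 2, 3, 4, 5], 2, 3, 225⟩,
    ⟨[0, 1, 3, 2, 5, 4], [0, 1, 2, 3, 5, 4], 2, 3, 225⟩,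
    ⟨[0, 1, 3, 4, 2, 5], [0, 1, 2, 4, 3, 5], 2, 4, 50⟩,
    ⟨[0, 1, 3, 4, 5, 2], [0, 1, 2, 4, 5, 3], 2, 5, 50⟩,
    ⟨[0, 1, 3, 5, 2, 4], [0, 1, 2, 5, 3, 4], 2, 4, 50⟩,
    ⟨[0, 1, 3, 5, 4, 2], [0, 1, 2, 5, 4, 3], 2, 5, 100⟩,
    ⟨[0, 1, 4, 2, 3, 5], [0, 1, 2, 4, 3, 5], 2, 3, 150⟩,
    ⟨[0, 1, 4, 2, 5, 3], [0, 1, 2, 4, 5, 3], 2, 3, 150⟩,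
    ⟨[0, 1, 4, 3, 2, 5], [0, 1, 3, 4, 2, 5], 2, 3, 25⟩,
    ⟨[0, 1, 4, 3, 5, 2], [0, 1, 3, 4, 5, 2], 2, 3, 25⟩,
    ⟨[0, 1, 4, 5, 2, 3], [0, 1, 2, 5, 4, 3], 2, 4, 50⟩,
    ⟨[0, 1, 4, 5, 3, 2], [0, 1, 3, 5, 4, 2], 2, 4, 50⟩,
    ⟨[0, 1, 5, 2, 3, 4], [0, 1, 2, 5, 3, 4], 2, 3, 150⟩,
    ⟨[0, 1, 5, 2, 4, 3], [0, 1, 2, 5, 4, 3], 2, 3, 150⟩,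
    ⟨[0, 1, 5, 3, 2, 4], [0, 1, 3, 5, 2, 4], 2, 3, 25⟩,
    ⟨[0, 1, 5, 3, 4, 2], [0, 1, 3, 5, 4, 2], 2, 3, 25⟩,
    ⟨[0, 1, 5, 4, 2, 3], [0, 1, 4, 5, 2, 3], 2, 3, 25⟩,
    ⟨[0, 1, 5, 4, 3, 2], [0, 1, 4, 5, 3, 2], 2, 3, 25⟩,
    ⟨[0, 2, 3, 1, 4, 5], [0, 1, 3, 2, 4, 5], 1, 3, 150⟩,
    ⟨[0, 2, 3, 1, 5, 4], [0, 1, 3, 2, 5, 4], 1, 3, 150⟩,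
    ⟨[0, 2, 4, 1, 3, 5], [0, 1, 4, 2, 3, 5], 1, 3, 125⟩,
    ⟨[0, 2, 4, 1, 5, 3], [0, 1, 4, 2, 5, 3], 1, 3, 125⟩,
    ⟨[0, 2, 5, 1, 3, 4], [0, 1, 5, 2, 3, 4], 1, 3, 125⟩,
    ⟨[0, 2, 5, 1, 4, 3], [0, 1, 5, 2, 4, 3], 1, 3, 125⟩,
    ⟨[0, 1, 2, 3, 4, 5], [1, 0, 2, 3, 4, 5], 0, 1, 234⟩,
    ⟨[0, 2, 1, 3, 4, 5], [2, 0, 1, 3, 4, 5], 0, 1, 125⟩,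
    ⟨[0, 1, 2, 3, 4, 5], [0, 2, 1, 3, 4, 5], 1, 2, 108⟩,
    ⟨[1, 2, 0, 3, 4, 5], [2, 1, 0, 3, 4, 5], 0, 1, 143⟩,
    ⟨[1, 0, 2, 3, 4, 5], [1, 2, 0, 3, 4, 5], 1, 2, 126⟩,
    ⟨[2, 0, 1, 3, 4, 5], [2, 1, 0, 3, 4, 5], 1, 2, 17⟩,
    ⟨[0, 1, 2, 3, 5, 4], [1, 0, 2, 3, 5, 4], 0, 1, 234⟩,
    ⟨[0, 2, 1, 3, 5, 4], [2, 0, 1, 3, 5, 4], 0, 1, 125⟩,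
    ⟨[0, 1, 2, 3, 5, 4], [0, 2, 1, 3, 5, 4], 1, 2, 108⟩,
    ⟨[1, 2, 0, 3, 5, 4], [2, 1, 0, 3, 5, 4], 0, 1, 143⟩,
    ⟨[1, 0, 2, 3, 5, 4], [1, 2, 0, 3, 5, 4], 1, 2, 126⟩,
    ⟨[2, 0, 1, 3, 5, 4], [2, 1, 0, 3, 5, 4], 1, 2, 17⟩,
    ⟨[0, 1, 2, 4, 3, 5], [1, 0, 2, 4, 3, 5], 0, 1, 234⟩,
    ⟨[0, 2, 1, 4, 3, 5], [2, 0, 1, 4, 3, 5], 0, 1, 125⟩,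
    ⟨[0, 1, 2, 4, 3, 5], [0, 2, 1, 4, 3, 5], 1, 2, 108⟩,
    ⟨[1, 2, 0, 4, 3, 5], [2, 1, 0, 4, 3, 5], 0, 1, 143⟩,
    ⟨[1, 0, 2, 4, 3, 5], [1, 2, 0, 4, 3, 5], 1, 2, 126⟩,
    ⟨[2, 0, 1, 4, 3, 5], [2, 1, 0, 4, 3, 5], 1, 2, 17⟩,
    ⟨[0, 1, 2, 4, 5, 3], [1, 0, 2, 4, 5, 3], 0, 1, 234⟩,
    ⟨[0, 2, 1, 4, 5, 3], [2, 0, 1, 4, 5, 3], 0, 1, 125⟩,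
    ⟨[0, 1, 2, 4, 5, 3], [0, 2, 1, 4, 5, 3], 1, 2, 108⟩,
    ⟨[1, 2, 0, 4, 5, 3], [2, 1, 0, 4, 5, 3], 0, 1, 143⟩,
    ⟨[1, 0, 2, 4, 5, 3], [1, 2, 0, 4, 5, 3], 1, 2, 126⟩,
    ⟨[2, 0, 1, 4, 5, 3], [2, 1, 0, 4, 5, 3], 1, 2, 17⟩,
    ⟨[0, 1, 2, 5, 3, 4], [1, 0, 2, 5, 3, 4], 0, 1, 234⟩,
    ⟨[0, 2, 1, 5, 3, 4], [2, 0, 1, 5, 3, 4], 0, 1, 125⟩,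
    ⟨[0, 1, 2, 5, 3, 4], [0, 2, 1, 5, 3, 4], 1, 2, 108⟩,
    ⟨[1, 2, 0, 5, 3, 4], [2, 1, 0, 5, 3, 4], 0, 1, 143⟩,
    ⟨[1, 0, 2, 5, 3, 4], [1, 2, 0, 5, 3, 4], 1, 2, 126⟩,
    ⟨[2, 0, 1, 5, 3, 4], [2, 1, 0, 5, 3, 4], 1, 2, 17⟩,
    ⟨[0, 1, 2, 5, 4, 3], [1, 0, 2, 5, 4, 3], 0, 1, 234⟩,
    ⟨[0, 2, 1, 5, 4, 3], [2, 0, 1, 5, 4, 3], 0, 1, 125⟩,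
    ⟨[0, 1, 2, 5, 4, 3], [0, 2, 1, 5, 4, 3], 1, 2, 108⟩,
    ⟨[1, 2, 0, 5, 4, 3], [2, 1, 0, 5, 4, 3], 0, 1, 143⟩,
    ⟨[1, 0, 2, 5, 4, 3], [1, 2, 0, 5, 4, 3], 1, 2, 126⟩,
    ⟨[2, 0, 1, 5, 4, 3], [2, 1, 0, 5, 4, 3], 1, 2, 17⟩,
    ⟨[0, 1, 3, 2, 4, 5], [1, 0, 3, 2, 4, 5], 0, 1, 59⟩,
    ⟨[0, 3, 1, 2, 4, 5], [0, 1, 3, 2, 4, 5], 1, 2, 17⟩,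
    ⟨[1, 3, 0, 2, 4, 5], [1, 0, 3, 2, 4, 5], 1, 2, 17⟩,
    ⟨[0, 1, 3, 2, 5, 4], [1, 0, 3, 2, 5, 4], 0, 1, 59⟩,
    ⟨[0, 3, 1, 2, 5, 4], [0, 1, 3, 2, 5, 4], 1, 2, 17⟩,
    ⟨[1, 3, 0, 2, 5, 4], [1, 0, 3, 2, 5, 4], 1, 2, 17⟩,
    ⟨[0, 1, 3, 4, 2, 5], [1, 0, 3, 4, 2, 5], 0, 1, 92⟩,
    ⟨[0, 1, 3, 4, 5, 2], [1, 0, 3, 4, 5, 2], 0, 1, 92⟩,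
    ⟨[0, 1, 3, 5, 2, 4], [1, 0, 3, 5, 2, 4], 0, 1, 92⟩,
    ⟨[0, 1, 3, 5, 4, 2], [1, 0, 3, 5, 4, 2], 0, 1, 92⟩,
    ⟨[0, 1, 4, 2, 3, 5], [1, 0, 4, 2, 3, 5], 0, 1, 92⟩,
    ⟨[0, 1, 4, 2, 5, 3], [1, 0, 4, 2, 5, 3], 0, 1, 92⟩,
    ⟨[0, 1, 4, 3, 2, 5], [1, 0, 4, 3, 2, 5], 0, 1, 92⟩,
    ⟨[0, 1, 4, 3, 5, 2], [1, 0, 4, 3, 5, 2], 0, 1, 92⟩,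
    ⟨[0, 1, 4, 5, 2, 3], [1, 0, 4, 5, 2, 3], 0, 1, 92⟩,
    ⟨[0, 1, 4, 5, 3, 2], [1, 0, 4, 5, 3, 2], 0, 1, 92⟩,
    ⟨[0, 1, 5, 2, 3, 4], [1, 0, 5, 2, 3, 4], 0, 1, 92⟩,
    ⟨[0, 1, 5, 2, 4, 3], [1, 0, 5, 2, 4, 3], 0, 1, 92⟩,
    ⟨[0, 1, 5, 3, 2, 4], [1, 0, 5, 3, 2, 4], 0, 1, 92⟩,
    ⟨[0, 1, 5, 3, 4, 2], [1, 0, 5, 3, 4, 2], 0, 1, 92⟩,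
    ⟨[0, 1, 5, 4, 2, 3], [1, 0, 5, 4, 2, 3], 0, 1, 92⟩,
    ⟨[0, 1, 5, 4, 3, 2], [1, 0, 5, 4, 3, 2], 0, 1, 92⟩,
    ⟨[0, 3, 2, 1, 4, 5], [0, 2, 3, 1, 4, 5], 1, 2, 17⟩,
    ⟨[0, 3, 2, 1, 5, 4], [0, 2, 3, 1, 5, 4], 1, 2, 17⟩]

theorem vR20_ok : checkq 9 25 vR20 = true := by decide +kernel

def vR3 : Cert where
  k := 5
  cmp := [(0, 4)]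
  free := [(0, 1), (0, 2), (0, 3), (1, 2), (1, 3), (1, 4), (2, 3), (2, 4), (3, 4)]
  comp := [(0, 1, [4])]
  lam := [(0, 1, 18), (1, 2, 3), (2, 3, 4)]
  flow := [
    ⟨[0, 1, 3, 4, 2], [0, 1, 3, 2, 4], 3, 4, 75⟩,
    ⟨[0, 1, 4, 2, 3], [0, 1, 3, 2, 4], 2, 4, 125⟩,
    ⟨[0, 1, 4, 3, 2], [0, 1, 4, 2, 3], 3, 4, 175⟩,
    ⟨[0, 2, 1, 4, 3], [0, 2, 1, 3, 4], 3, 4, 75⟩,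
    ⟨[0, 2, 3, 4, 1], [0, 2, 1, 4, 3], 2, 4, 75⟩,
    ⟨[0, 2, 3, 4, 1], [0, 2, 3, 1, 4], 3, 4, 150⟩,
    ⟨[0, 2, 4, 1, 3], [0, 2, 1, 4, 3], 2, 3, 75⟩,
    ⟨[0, 2, 4, 3, 1], [0, 1, 4, 3, 2], 1, 4, 225⟩,
    ⟨[0, 2, 4, 3, 1], [0, 2, 4, 1, 3], 3, 4, 75⟩,
    ⟨[0, 3, 1, 4, 2], [0, 1, 3, 4, 2], 1, 2, 75⟩,
    ⟨[0, 3, 1, 4, 2], [0, 3, 1, 2, 4], 3, 4, 75⟩,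
    ⟨[0, 3, 2, 1, 4], [0, 2, 3, 1, 4], 1, 2, 50⟩,
    ⟨[0, 3, 2, 4, 1], [0, 3, 2, 1, 4], 3, 4, 150⟩,
    ⟨[0, 3, 4, 1, 2], [0, 3, 2, 1, 4], 2, 4, 175⟩,
    ⟨[0, 3, 4, 2, 1], [0, 2, 4, 3, 1], 1, 3, 175⟩,
    ⟨[0, 4, 1, 2, 3], [0, 1, 4, 2, 3], 1, 2, 150⟩,
    ⟨[0, 4, 1, 3, 2], [0, 1, 4, 3, 2], 1, 2, 150⟩,
    ⟨[0, 4, 2, 1, 3], [0, 2, 4, 1, 3], 1, 2, 200⟩,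
    ⟨[0, 4, 2, 3, 1], [0, 4, 2, 1, 3], 3, 4, 150⟩,
    ⟨[0, 4, 3, 1, 2], [0, 3, 4, 1, 2], 1, 2, 50⟩,
    ⟨[0, 4, 3, 2, 1], [0, 3, 4, 2, 1], 1, 2, 50⟩,
    ⟨[1, 2, 0, 4, 3], [1, 2, 0, 3, 4], 3, 4, 150⟩,
    ⟨[1, 3, 0, 4, 2], [1, 2, 0, 4, 3], 1, 4, 300⟩,
    ⟨[1, 3, 4, 0, 2], [1, 3, 2, 0, 4], 2, 4, 175⟩,
    ⟨[1, 4, 0, 2, 3], [1, 3, 0, 2, 4], 1, 4, 150⟩,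
    ⟨[1, 4, 0, 3, 2], [1, 3, 0, 4, 2], 1, 3, 150⟩,
    ⟨[1, 4, 2, 0, 3], [1, 2, 4, 0, 3], 1, 2, 100⟩,
    ⟨[1, 4, 3, 0, 2], [1, 3, 4, 0, 2], 1, 2, 50⟩,
    ⟨[2, 4, 0, 1, 3], [2, 3, 0, 1, 4], 1, 4, 150⟩,
    ⟨[2, 4, 1, 0, 3], [1, 4, 2, 0, 3], 0, 2, 50⟩,
    ⟨[0, 1, 2, 3, 4], [1, 0, 2, 3, 4], 0, 1, 225⟩,
    ⟨[0, 1, 2, 4, 3], [1, 0, 2, 4, 3], 0, 1, 225⟩,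
    ⟨[0, 1, 3, 2, 4], [1, 0, 3, 2, 4], 0, 1, 325⟩,
    ⟨[0, 1, 3, 4, 2], [1, 0, 3, 4, 2], 0, 1, 225⟩,
    ⟨[0, 1, 4, 2, 3], [1, 0, 4, 2, 3], 0, 1, 325⟩,
    ⟨[0, 1, 4, 3, 2], [1, 0, 4, 3, 2], 0, 1, 325⟩,
    ⟨[0, 2, 1, 3, 4], [2, 0, 1, 3, 4], 0, 1, 225⟩,
    ⟨[0, 2, 1, 4, 3], [2, 0, 1, 4, 3], 0, 1, 225⟩,
    ⟨[0, 2, 3, 1, 4], [2, 0, 3, 1, 4], 0, 1, 325⟩,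
    ⟨[0, 2, 4, 1, 3], [2, 0, 4, 1, 3], 0, 1, 325⟩,
    ⟨[0, 3, 1, 2, 4], [3, 0, 1, 2, 4], 0, 1, 225⟩,
    ⟨[0, 3, 2, 1, 4], [3, 0, 2, 1, 4], 0, 1, 325⟩,
    ⟨[1, 2, 0, 3, 4], [2, 1, 0, 3, 4], 0, 1, 300⟩,
    ⟨[1, 2, 0, 4, 3], [2, 1, 0, 4, 3], 0, 1, 300⟩,
    ⟨[1, 2, 3, 0, 4], [2, 1, 3, 0, 4], 0, 1, 125⟩,
    ⟨[1, 2, 4, 0, 3], [2, 1, 4, 0, 3], 0, 1, 225⟩,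
    ⟨[1, 3, 0, 2, 4], [3, 1, 0, 2, 4], 0, 1, 300⟩,
    ⟨[1, 3, 2, 0, 4], [3, 1, 2, 0, 4], 0, 1, 225⟩,
    ⟨[2, 3, 0, 1, 4], [3, 2, 0, 1, 4], 0, 1, 300⟩,
    ⟨[2, 3, 1, 0, 4], [3, 2, 1, 0, 4], 0, 1, 50⟩]

theorem vR3_ok : checkq 9 25 vR3 = true := by decide +kernel

def vL4 : Cert where
  k := 5
  cmp := [(0, 4)]
  free := [(0, 1), (0, 2), (0, 3), (1, 2), (1, 3), (1, 4), (2, 3), (2, 4), (3, 4)]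
  comp := [(3, 4, [0])]
  lam := [(0, 1, 9), (1, 2, 10), (2, 3, 9), (3, 4, 72)]
  flow := [
    ⟨[0, 2, 3, 1, 4], [0, 1, 3, 2, 4], 1, 3, 225⟩,
    ⟨[0, 2, 4, 1, 3], [0, 1, 4, 2, 3], 1, 3, 450⟩,
    ⟨[0, 3, 1, 2, 4], [0, 2, 1, 3, 4], 1, 3, 500⟩,
    ⟨[0, 3, 2, 1, 4], [0, 2, 3, 1, 4], 1, 2, 450⟩,
    ⟨[0, 3, 2, 1, 4], [0, 3, 1, 2, 4], 2, 3, 1000⟩,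
    ⟨[0, 3, 4, 1, 2], [0, 2, 4, 1, 3], 1, 4, 225⟩,
    ⟨[1, 2, 0, 3, 4], [1, 0, 2, 3, 4], 1, 2, 450⟩,
    ⟨[1, 2, 3, 0, 4], [1, 2, 0, 3, 4], 2, 3, 675⟩,
    ⟨[1, 2, 4, 0, 3], [0, 2, 4, 1, 3], 0, 3, 225⟩,
    ⟨[1, 2, 4, 0, 3], [1, 0, 4, 2, 3], 1, 3, 900⟩,
    ⟨[1, 3, 0, 2, 4], [1, 2, 0, 3, 4], 1, 3, 275⟩,
    ⟨[1, 3, 2, 0, 4], [0, 3, 2, 1, 4], 0, 3, 1150⟩,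
    ⟨[1, 3, 2, 0, 4], [1, 3, 0, 2, 4], 2, 3, 350⟩,
    ⟨[1, 3, 4, 0, 2], [0, 3, 4, 1, 2], 0, 3, 675⟩,
    ⟨[1, 4, 0, 2, 3], [0, 4, 1, 2, 3], 0, 2, 275⟩,
    ⟨[1, 4, 2, 0, 3], [0, 4, 2, 1, 3], 0, 3, 75⟩,
    ⟨[1, 4, 2, 0, 3], [1, 4, 0, 2, 3], 2, 3, 775⟩,
    ⟨[1, 4, 3, 0, 2], [0, 4, 3, 1, 2], 0, 3, 425⟩,
    ⟨[2, 0, 3, 1, 4], [2, 0, 1, 3, 4], 2, 3, 450⟩,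
    ⟨[2, 0, 4, 1, 3], [0, 2, 4, 1, 3], 0, 1, 450⟩,
    ⟨[2, 1, 3, 0, 4], [2, 1, 0, 3, 4], 2, 3, 450⟩,
    ⟨[2, 1, 4, 0, 3], [1, 2, 4, 0, 3], 0, 1, 450⟩,
    ⟨[2, 3, 0, 1, 4], [0, 3, 2, 1, 4], 0, 2, 575⟩,
    ⟨[2, 3, 0, 1, 4], [2, 1, 0, 3, 4], 1, 3, 500⟩,
    ⟨[2, 3, 1, 0, 4], [1, 3, 2, 0, 4], 0, 2, 625⟩,
    ⟨[2, 4, 0, 1, 3], [0, 4, 2, 1, 3], 0, 2, 650⟩,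
    ⟨[2, 4, 1, 0, 3], [1, 4, 2, 0, 3], 0, 2, 425⟩,
    ⟨[3, 0, 1, 2, 4], [1, 0, 3, 2, 4], 0, 2, 675⟩,
    ⟨[3, 0, 2, 1, 4], [0, 3, 2, 1, 4], 0, 1, 450⟩,
    ⟨[3, 1, 0, 2, 4], [1, 3, 0, 2, 4], 0, 1, 425⟩,
    ⟨[3, 1, 2, 0, 4], [1, 3, 2, 0, 4], 0, 1, 450⟩,
    ⟨[3, 2, 0, 1, 4], [2, 3, 0, 1, 4], 0, 1, 425⟩,
    ⟨[3, 2, 1, 0, 4], [2, 3, 1, 0, 4], 0, 1, 200⟩,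
    ⟨[0, 1, 2, 3, 4], [0, 1, 2, 4, 3], 3, 4, 900⟩,
    ⟨[0, 1, 3, 2, 4], [0, 1, 3, 4, 2], 3, 4, 900⟩,
    ⟨[0, 1, 4, 2, 3], [0, 1, 4, 3, 2], 3, 4, 1125⟩,
    ⟨[0, 2, 1, 3, 4], [0, 2, 1, 4, 3], 3, 4, 1150⟩,
    ⟨[0, 2, 3, 1, 4], [0, 2, 3, 4, 1], 3, 4, 900⟩,
    ⟨[0, 2, 4, 1, 3], [0, 2, 4, 3, 1], 3, 4, 1125⟩,
    ⟨[0, 3, 1, 2, 4], [0, 3, 1, 4, 2], 3, 4, 1150⟩,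
    ⟨[0, 3, 2, 1, 4], [0, 3, 2, 4, 1], 3, 4, 1150⟩,
    ⟨[0, 3, 4, 1, 2], [0, 3, 4, 2, 1], 3, 4, 1125⟩,
    ⟨[0, 4, 1, 2, 3], [0, 4, 1, 3, 2], 3, 4, 925⟩,
    ⟨[0, 4, 2, 1, 3], [0, 4, 2, 3, 1], 3, 4, 1150⟩,
    ⟨[0, 4, 3, 1, 2], [0, 4, 3, 2, 1], 3, 4, 850⟩,
    ⟨[1, 0, 2, 3, 4], [1, 0, 2, 4, 3], 3, 4, 1125⟩,
    ⟨[1, 0, 3, 2, 4], [1, 0, 3, 4, 2], 3, 4, 1125⟩,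
    ⟨[1, 0, 4, 2, 3], [1, 0, 4, 3, 2], 3, 4, 1350⟩,
    ⟨[1, 2, 0, 3, 4], [1, 2, 0, 4, 3], 3, 4, 1150⟩,
    ⟨[1, 3, 0, 2, 4], [1, 3, 0, 4, 2], 3, 4, 1150⟩,
    ⟨[1, 4, 0, 2, 3], [1, 4, 0, 3, 2], 3, 4, 1150⟩,
    ⟨[2, 0, 1, 3, 4], [2, 0, 1, 4, 3], 3, 4, 1125⟩,
    ⟨[2, 1, 0, 3, 4], [2, 1, 0, 4, 3], 3, 4, 1375⟩]

theorem vL4_ok : checkq 9 25 vL4 = true := by decide +kernel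

def vK02 : Cert where
  k := 7
  cmp := [(0, 3), (0, 4), (0, 5), (0, 6), (1, 5), (1, 6), (2, 5), (2, 6), (3, 5), (3, 6)]
  free := [(0, 1), (0, 2), (1, 2), (1, 3), (1, 4), (2, 3), (2, 4), (3, 4), (4, 5), (4, 6), (5, 6)]
  comp := [(2, 3, [0]), (3, 4, [5, 6])]
  lam := [(0, 1, 249), (1, 2, 183), (2, 3, 1130), (5, 6, 6)]
  flow := [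
    ⟨[0, 2, 1, 3, 4, 6, 5], [0, 1, 2, 3, 4, 6, 5], 1, 2, 900⟩,
    ⟨[0, 2, 1, 3, 5, 4, 6], [0, 2, 1, 3, 4, 5, 6], 4, 5, 3325⟩,
    ⟨[0, 2, 1, 3, 5, 6, 4], [0, 1, 2, 3, 5, 6, 4], 1, 2, 300⟩,
    ⟨[0, 2, 1, 3, 6, 5, 4], [0, 1, 2, 3, 6, 5, 4], 1, 2, 300⟩,
    ⟨[0, 2, 1, 3, 6, 5, 4], [0, 2, 1, 3, 6, 4, 5], 5, 6, 2400⟩,
    ⟨[0, 3, 1, 2, 4, 5, 6], [0, 2, 1, 3, 4, 5, 6], 1, 3, 1200⟩,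
    ⟨[0, 3, 1, 2, 5, 4, 6], [0, 3, 1, 2, 4, 5, 6], 4, 5, 400⟩,
    ⟨[0, 3, 1, 2, 6, 4, 5], [0, 3, 1, 2, 4, 6, 5], 4, 5, 400⟩,
    ⟨[1, 0, 2, 3, 5, 4, 6], [1, 0, 2, 3, 4, 5, 6], 4, 5, 425⟩,
    ⟨[1, 0, 2, 3, 5, 6, 4], [1, 0, 2, 3, 4, 6, 5], 4, 6, 2400⟩,
    ⟨[1, 0, 2, 3, 6, 4, 5], [1, 0, 2, 3, 4, 6, 5], 4, 5, 6150⟩,
    ⟨[1, 2, 0, 3, 4, 5, 6], [0, 2, 1, 3, 4, 5, 6], 0, 2, 4625⟩,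
    ⟨[1, 2, 0, 3, 4, 5, 6], [1, 0, 2, 3, 4, 5, 6], 1, 2, 21125⟩,
    ⟨[1, 2, 0, 3, 4, 6, 5], [0, 2, 1, 3, 4, 6, 5], 0, 2, 10950⟩,
    ⟨[1, 2, 0, 3, 4, 6, 5], [1, 0, 2, 3, 4, 6, 5], 1, 2, 14200⟩,
    ⟨[1, 2, 0, 3, 5, 4, 6], [1, 0, 2, 3, 5, 4, 6], 1, 2, 12875⟩,
    ⟨[1, 2, 0, 3, 5, 6, 4], [0, 2, 1, 3, 5, 6, 4], 0, 2, 5175⟩,
    ⟨[1, 2, 0, 3, 5, 6, 4], [1, 0, 2, 3, 5, 6, 4], 1, 2, 7400⟩,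
    ⟨[1, 2, 0, 3, 6, 4, 5], [0, 2, 1, 3, 6, 4, 5], 0, 2, 2175⟩,
    ⟨[1, 2, 0, 3, 6, 4, 5], [1, 0, 2, 3, 6, 4, 5], 1, 2, 10700⟩,
    ⟨[1, 2, 0, 3, 6, 5, 4], [1, 0, 2, 3, 6, 5, 4], 1, 2, 12575⟩,
    ⟨[1, 3, 0, 2, 4, 5, 6], [0, 3, 1, 2, 4, 5, 6], 0, 2, 19100⟩,
    ⟨[1, 3, 0, 2, 4, 6, 5], [0, 3, 1, 2, 4, 6, 5], 0, 2, 18800⟩,
    ⟨[1, 3, 0, 2, 5, 4, 6], [0, 3, 1, 2, 5, 4, 6], 0, 2, 9550⟩,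
    ⟨[1, 3, 0, 2, 5, 6, 4], [0, 3, 1, 2, 5, 6, 4], 0, 2, 9400⟩,
    ⟨[1, 3, 0, 2, 6, 4, 5], [0, 3, 1, 2, 6, 4, 5], 0, 2, 9550⟩,
    ⟨[1, 3, 0, 2, 6, 5, 4], [0, 3, 1, 2, 6, 5, 4], 0, 2, 9400⟩,
    ⟨[1, 4, 0, 2, 3, 5, 6], [0, 4, 1, 2, 3, 5, 6], 0, 2, 19100⟩,
    ⟨[1, 4, 0, 2, 3, 6, 5], [0, 4, 1, 2, 3, 6, 5], 0, 2, 18800⟩,
    ⟨[2, 0, 1, 3, 4, 5, 6], [1, 0, 2, 3, 4, 5, 6], 0, 2, 15800⟩,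
    ⟨[2, 0, 1, 3, 4, 6, 5], [1, 0, 2, 3, 4, 6, 5], 0, 2, 15500⟩,
    ⟨[2, 0, 1, 3, 5, 4, 6], [0, 2, 1, 3, 5, 4, 6], 0, 1, 7900⟩,
    ⟨[2, 0, 1, 3, 5, 6, 4], [1, 0, 2, 3, 5, 6, 4], 0, 2, 7750⟩,
    ⟨[2, 0, 1, 3, 6, 4, 5], [1, 0, 2, 3, 6, 4, 5], 0, 2, 7900⟩,
    ⟨[2, 0, 1, 3, 6, 5, 4], [0, 2, 1, 3, 6, 5, 4], 0, 1, 7575⟩,
    ⟨[2, 0, 1, 3, 6, 5, 4], [1, 0, 2, 3, 6, 5, 4], 0, 2, 175⟩,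
    ⟨[2, 1, 0, 3, 4, 5, 6], [1, 2, 0, 3, 4, 5, 6], 0, 1, 6650⟩,
    ⟨[2, 1, 0, 3, 4, 6, 5], [1, 2, 0, 3, 4, 6, 5], 0, 1, 6350⟩,
    ⟨[2, 1, 0, 3, 5, 4, 6], [1, 2, 0, 3, 5, 4, 6], 0, 1, 3325⟩,
    ⟨[2, 1, 0, 3, 5, 6, 4], [1, 2, 0, 3, 5, 6, 4], 0, 1, 3175⟩,
    ⟨[2, 1, 0, 3, 6, 4, 5], [1, 2, 0, 3, 6, 4, 5], 0, 1, 3325⟩,
    ⟨[2, 1, 0, 3, 6, 5, 4], [1, 2, 0, 3, 6, 5, 4], 0, 1, 3175⟩,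
    ⟨[0, 1, 2, 3, 4, 5, 6], [0, 1, 3, 2, 4, 5, 6], 2, 3, 14112⟩,
    ⟨[0, 1, 2, 4, 3, 5, 6], [0, 1, 4, 2, 3, 5, 6], 2, 3, 14112⟩,
    ⟨[0, 1, 3, 4, 2, 5, 6], [0, 1, 3, 2, 4, 5, 6], 3, 4, 26⟩,
    ⟨[0, 1, 3, 4, 2, 5, 6], [0, 1, 4, 3, 2, 5, 6], 2, 3, 14086⟩,
    ⟨[0, 1, 2, 3, 4, 6, 5], [0, 1, 3, 2, 4, 6, 5], 2, 3, 14288⟩,
    ⟨[0, 1, 2, 4, 3, 6, 5], [0, 1, 4, 2, 3, 6, 5], 2, 3, 14536⟩,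
    ⟨[0, 1, 2, 3, 4, 6, 5], [0, 1, 2, 4, 3, 6, 5], 3, 4, 574⟩,
    ⟨[0, 1, 4, 2, 3, 6, 5], [0, 1, 4, 3, 2, 6, 5], 3, 4, 248⟩,
    ⟨[0, 1, 3, 4, 2, 6, 5], [0, 1, 4, 3, 2, 6, 5], 2, 3, 13962⟩,
    ⟨[0, 1, 2, 3, 5, 4, 6], [0, 1, 3, 2, 5, 4, 6], 2, 3, 14112⟩,
    ⟨[0, 1, 2, 3, 5, 6, 4], [0, 1, 3, 2, 5, 6, 4], 2, 3, 14262⟩,
    ⟨[0, 1, 2, 3, 6, 4, 5], [0, 1, 3, 2, 6, 4, 5], 2, 3, 14112⟩,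
    ⟨[0, 1, 2, 3, 6, 5, 4], [0, 1, 3, 2, 6, 5, 4], 2, 3, 14262⟩,
    ⟨[0, 2, 1, 3, 4, 5, 6], [0, 2, 3, 1, 4, 5, 6], 2, 3, 14138⟩,
    ⟨[0, 2, 1, 4, 3, 5, 6], [0, 2, 4, 1, 3, 5, 6], 2, 3, 14086⟩,
    ⟨[0, 2, 1, 3, 4, 5, 6], [0, 2, 1, 4, 3, 5, 6], 3, 4, 4549⟩,
    ⟨[0, 2, 3, 4, 1, 5, 6], [0, 2, 4, 3, 1, 5, 6], 2, 3, 14112⟩,
    ⟨[0, 2, 1, 3, 4, 6, 5], [0, 2, 3, 1, 4, 6, 5], 2, 3, 14288⟩,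
    ⟨[0, 2, 1, 4, 3, 6, 5], [0, 2, 4, 1, 3, 6, 5], 2, 3, 14536⟩,
    ⟨[0, 2, 1, 3, 4, 6, 5], [0, 2, 1, 4, 3, 6, 5], 3, 4, 5149⟩,
    ⟨[0, 2, 4, 1, 3, 6, 5], [0, 2, 4, 3, 1, 6, 5], 3, 4, 248⟩,
    ⟨[0, 2, 3, 4, 1, 6, 5], [0, 2, 4, 3, 1, 6, 5], 2, 3, 13962⟩,
    ⟨[0, 2, 1, 3, 5, 4, 6], [0, 2, 3, 1, 5, 4, 6], 2, 3, 14112⟩,
    ⟨[0, 2, 1, 3, 5, 6, 4], [0, 2, 3, 1, 5, 6, 4], 2, 3, 14262⟩,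
    ⟨[0, 2, 1, 3, 6, 4, 5], [0, 2, 3, 1, 6, 4, 5], 2, 3, 14112⟩,
    ⟨[0, 2, 1, 3, 6, 5, 4], [0, 2, 3, 1, 6, 5, 4], 2, 3, 14262⟩,
    ⟨[0, 3, 1, 2, 4, 5, 6], [0, 3, 2, 1, 4, 5, 6], 2, 3, 18713⟩,
    ⟨[0, 3, 1, 4, 2, 5, 6], [0, 3, 4, 1, 2, 5, 6], 2, 3, 18661⟩,
    ⟨[0, 3, 1, 2, 4, 5, 6], [0, 3, 1, 4, 2, 5, 6], 3, 4, 9124⟩,
    ⟨[0, 3, 4, 1, 2, 5, 6], [0, 3, 4, 2, 1, 5, 6], 3, 4, 4523⟩,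
    ⟨[0, 3, 2, 4, 1, 5, 6], [0, 3, 4, 2, 1, 5, 6], 2, 3, 9537⟩,
    ⟨[0, 3, 1, 2, 4, 6, 5], [0, 3, 2, 1, 4, 6, 5], 2, 3, 18863⟩,
    ⟨[0, 3, 1, 4, 2, 6, 5], [0, 3, 4, 1, 2, 6, 5], 2, 3, 19111⟩,
    ⟨[0, 3, 1, 2, 4, 6, 5], [0, 3, 1, 4, 2, 6, 5], 3, 4, 9724⟩,
    ⟨[0, 3, 4, 1, 2, 6, 5], [0, 3, 4, 2, 1, 6, 5], 3, 4, 4823⟩,
    ⟨[0, 3, 2, 4, 1, 6, 5], [0, 3, 4, 2, 1, 6, 5], 2, 3, 9387⟩,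
    ⟨[0, 3, 1, 2, 5, 4, 6], [0, 3, 2, 1, 5, 4, 6], 2, 3, 18687⟩,
    ⟨[0, 3, 1, 2, 5, 6, 4], [0, 3, 2, 1, 5, 6, 4], 2, 3, 18787⟩,
    ⟨[0, 3, 1, 2, 6, 4, 5], [0, 3, 2, 1, 6, 4, 5], 2, 3, 18687⟩,
    ⟨[0, 3, 1, 2, 6, 5, 4], [0, 3, 2, 1, 6, 5, 4], 2, 3, 18787⟩,
    ⟨[0, 4, 1, 2, 3, 5, 6], [0, 4, 2, 1, 3, 5, 6], 2, 3, 18713⟩,
    ⟨[0, 4, 1, 3, 2, 5, 6], [0, 4, 3, 1, 2, 5, 6], 2, 3, 19461⟩,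
    ⟨[0, 4, 1, 2, 3, 5, 6], [0, 4, 1, 3, 2, 5, 6], 3, 4, 9924⟩,
    ⟨[0, 4, 3, 1, 2, 5, 6], [0, 4, 3, 2, 1, 5, 6], 3, 4, 748⟩,
    ⟨[0, 4, 2, 3, 1, 5, 6], [0, 4, 3, 2, 1, 5, 6], 2, 3, 9537⟩,
    ⟨[0, 4, 1, 2, 3, 6, 5], [0, 4, 2, 1, 3, 6, 5], 2, 3, 18863⟩,
    ⟨[0, 4, 1, 3, 2, 6, 5], [0, 4, 3, 1, 2, 6, 5], 2, 3, 18711⟩,
    ⟨[0, 4, 1, 2, 3, 6, 5], [0, 4, 1, 3, 2, 6, 5], 3, 4, 9324⟩,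
    ⟨[0, 4, 2, 3, 1, 6, 5], [0, 4, 3, 2, 1, 6, 5], 2, 3, 9387⟩,
    ⟨[1, 0, 2, 3, 4, 5, 6], [1, 0, 3, 2, 4, 5, 6], 2, 3, 24874⟩,
    ⟨[1, 0, 2, 4, 3, 5, 6], [1, 0, 4, 2, 3, 5, 6], 2, 3, 28250⟩,
    ⟨[1, 0, 2, 3, 4, 5, 6], [1, 0, 2, 4, 3, 5, 6], 3, 4, 20363⟩,
    ⟨[1, 0, 3, 4, 2, 5, 6], [1, 0, 4, 3, 2, 5, 6], 2, 3, 12398⟩,
    ⟨[1, 0, 3, 2, 4, 5, 6], [1, 0, 3, 4, 2, 5, 6], 3, 4, 4511⟩,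
    ⟨[1, 0, 4, 2, 3, 5, 6], [1, 0, 4, 3, 2, 5, 6], 3, 4, 7887⟩,
    ⟨[1, 0, 2, 3, 4, 6, 5], [1, 0, 3, 2, 4, 6, 5], 2, 3, 25474⟩,
    ⟨[1, 0, 2, 4, 3, 6, 5], [1, 0, 4, 2, 3, 6, 5], 2, 3, 28250⟩,
    ⟨[1, 0, 2, 3, 4, 6, 5], [1, 0, 2, 4, 3, 6, 5], 3, 4, 20513⟩,
    ⟨[1, 0, 3, 4, 2, 6, 5], [1, 0, 4, 3, 2, 6, 5], 2, 3, 12698⟩,
    ⟨[1, 0, 3, 2, 4, 6, 5], [1, 0, 3, 4, 2, 6, 5], 3, 4, 4961⟩,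
    ⟨[1, 0, 4, 2, 3, 6, 5], [1, 0, 4, 3, 2, 6, 5], 3, 4, 7737⟩,
    ⟨[1, 0, 2, 3, 5, 4, 6], [1, 0, 3, 2, 5, 4, 6], 2, 3, 20337⟩,
    ⟨[1, 0, 2, 3, 5, 6, 4], [1, 0, 3, 2, 5, 6, 4], 2, 3, 20487⟩,
    ⟨[1, 0, 2, 3, 6, 4, 5], [1, 0, 3, 2, 6, 4, 5], 2, 3, 20337⟩,
    ⟨[1, 0, 2, 3, 6, 5, 4], [1, 0, 3, 2, 6, 5, 4], 2, 3, 20487⟩,
    ⟨[1, 2, 0, 4, 3, 5, 6], [1, 2, 0, 3, 4, 5, 6], 3, 4, 9537⟩,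
    ⟨[1, 2, 0, 4, 3, 6, 5], [1, 2, 0, 3, 4, 6, 5], 3, 4, 9387⟩,
    ⟨[1, 3, 0, 4, 2, 5, 6], [1, 3, 0, 2, 4, 5, 6], 3, 4, 9537⟩,
    ⟨[1, 3, 0, 4, 2, 6, 5], [1, 3, 0, 2, 4, 6, 5], 3, 4, 9387⟩,
    ⟨[1, 4, 0, 3, 2, 5, 6], [1, 4, 0, 2, 3, 5, 6], 3, 4, 9537⟩,
    ⟨[1, 4, 0, 3, 2, 6, 5], [1, 4, 0, 2, 3, 6, 5], 3, 4, 9387⟩,
    ⟨[2, 0, 1, 4, 3, 5, 6], [2, 0, 1, 3, 4, 5, 6], 3, 4, 7887⟩,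
    ⟨[2, 0, 1, 4, 3, 6, 5], [2, 0, 1, 3, 4, 6, 5], 3, 4, 7737⟩,
    ⟨[2, 1, 0, 4, 3, 5, 6], [2, 1, 0, 3, 4, 5, 6], 3, 4, 3312⟩,
    ⟨[2, 1, 0, 4, 3, 6, 5], [2, 1, 0, 3, 4, 6, 5], 3, 4, 3162⟩]

theorem vK02_ok : checkq 9 25 vK02 = true := by decide +kernel

def vK12 : Cert where
  k := 7
  cmp := [(0, 3), (0, 4), (0, 5), (0, 6), (1, 4), (1, 5), (1, 6), (2, 5), (2, 6), (3, 5), (3, 6)]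
  free := [(0, 1), (0, 2), (1, 2), (1, 3), (2, 3), (2, 4), (3, 4), (4, 5), (4, 6), (5, 6)]
  comp := [(2, 3, [0]), (3, 4, [1, 5, 6])]
  lam := [(0, 1, 405), (1, 2, 304), (2, 3, 1860), (5, 6, 12)]
  flow := [
    ⟨[0, 1, 2, 3, 5, 6, 4], [0, 1, 2, 3, 4, 6, 5], 4, 6, 875⟩,
    ⟨[0, 1, 2, 3, 6, 4, 5], [0, 1, 2, 3, 4, 6, 5], 4, 5, 925⟩,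
    ⟨[0, 1, 2, 3, 6, 5, 4], [0, 1, 2, 3, 5, 6, 4], 4, 5, 1475⟩,
    ⟨[0, 2, 1, 3, 5, 4, 6], [0, 2, 1, 3, 4, 5, 6], 4, 5, 5975⟩,
    ⟨[0, 2, 1, 3, 5, 6, 4], [0, 2, 1, 3, 4, 6, 5], 4, 6, 6625⟩,
    ⟨[0, 2, 1, 3, 6, 4, 5], [0, 2, 1, 3, 4, 6, 5], 4, 5, 5525⟩,
    ⟨[0, 2, 1, 3, 6, 5, 4], [0, 1, 2, 3, 6, 5, 4], 1, 2, 2075⟩,
    ⟨[0, 2, 1, 3, 6, 5, 4], [0, 2, 1, 3, 5, 6, 4], 4, 5, 2275⟩,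
    ⟨[0, 3, 1, 2, 4, 5, 6], [0, 2, 1, 3, 4, 5, 6], 1, 3, 450⟩,
    ⟨[0, 3, 1, 2, 5, 4, 6], [0, 2, 1, 3, 5, 4, 6], 1, 3, 450⟩,
    ⟨[0, 3, 1, 2, 6, 4, 5], [0, 3, 1, 2, 4, 6, 5], 4, 5, 450⟩,
    ⟨[1, 0, 2, 3, 5, 4, 6], [1, 0, 2, 3, 4, 5, 6], 4, 5, 925⟩,
    ⟨[1, 0, 2, 3, 6, 4, 5], [0, 1, 2, 3, 6, 4, 5], 0, 1, 925⟩,
    ⟨[1, 2, 0, 3, 4, 5, 6], [0, 2, 1, 3, 4, 5, 6], 0, 2, 8775⟩,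
    ⟨[1, 2, 0, 3, 4, 5, 6], [1, 0, 2, 3, 4, 5, 6], 1, 2, 33575⟩,
    ⟨[1, 2, 0, 3, 4, 6, 5], [0, 2, 1, 3, 4, 6, 5], 0, 2, 4250⟩,
    ⟨[1, 2, 0, 3, 4, 6, 5], [1, 0, 2, 3, 4, 6, 5], 1, 2, 36900⟩,
    ⟨[1, 2, 0, 3, 5, 4, 6], [1, 0, 2, 3, 5, 4, 6], 1, 2, 21175⟩,
    ⟨[1, 2, 0, 3, 5, 6, 4], [1, 0, 2, 3, 5, 6, 4], 1, 2, 20575⟩,
    ⟨[1, 2, 0, 3, 6, 4, 5], [1, 0, 2, 3, 6, 4, 5], 1, 2, 21175⟩,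
    ⟨[1, 2, 0, 3, 6, 5, 4], [1, 0, 2, 3, 6, 5, 4], 1, 2, 20575⟩,
    ⟨[1, 3, 0, 2, 4, 5, 6], [0, 3, 1, 2, 4, 5, 6], 0, 2, 15650⟩,
    ⟨[1, 3, 0, 2, 4, 6, 5], [0, 3, 1, 2, 4, 6, 5], 0, 2, 15350⟩,
    ⟨[1, 3, 0, 2, 5, 4, 6], [0, 3, 1, 2, 5, 4, 6], 0, 2, 15650⟩,
    ⟨[1, 3, 0, 2, 5, 6, 4], [0, 3, 1, 2, 5, 6, 4], 0, 2, 15350⟩,
    ⟨[1, 3, 0, 2, 6, 4, 5], [0, 3, 1, 2, 6, 4, 5], 0, 2, 15650⟩,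
    ⟨[1, 3, 0, 2, 6, 5, 4], [0, 3, 1, 2, 6, 5, 4], 0, 2, 15350⟩,
    ⟨[2, 0, 1, 3, 4, 5, 6], [1, 0, 2, 3, 4, 5, 6], 0, 2, 26250⟩,
    ⟨[2, 0, 1, 3, 4, 6, 5], [1, 0, 2, 3, 4, 6, 5], 0, 2, 25650⟩,
    ⟨[2, 0, 1, 3, 5, 4, 6], [0, 2, 1, 3, 5, 4, 6], 0, 1, 13125⟩,
    ⟨[2, 0, 1, 3, 5, 6, 4], [0, 2, 1, 3, 5, 6, 4], 0, 1, 12550⟩,
    ⟨[2, 0, 1, 3, 5, 6, 4], [1, 0, 2, 3, 5, 6, 4], 0, 2, 275⟩,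
    ⟨[2, 0, 1, 3, 6, 4, 5], [0, 2, 1, 3, 6, 4, 5], 0, 1, 13125⟩,
    ⟨[2, 0, 1, 3, 6, 5, 4], [0, 2, 1, 3, 6, 5, 4], 0, 1, 12550⟩,
    ⟨[2, 0, 1, 3, 6, 5, 4], [1, 0, 2, 3, 6, 5, 4], 0, 2, 275⟩,
    ⟨[2, 1, 0, 3, 4, 5, 6], [1, 2, 0, 3, 4, 5, 6], 0, 1, 11050⟩,
    ⟨[2, 1, 0, 3, 4, 6, 5], [1, 2, 0, 3, 4, 6, 5], 0, 1, 10450⟩,
    ⟨[2, 1, 0, 3, 5, 4, 6], [1, 2, 0, 3, 5, 4, 6], 0, 1, 5525⟩,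
    ⟨[2, 1, 0, 3, 5, 6, 4], [1, 2, 0, 3, 5, 6, 4], 0, 1, 5225⟩,
    ⟨[2, 1, 0, 3, 6, 4, 5], [1, 2, 0, 3, 6, 4, 5], 0, 1, 5525⟩,
    ⟨[2, 1, 0, 3, 6, 5, 4], [1, 2, 0, 3, 6, 5, 4], 0, 1, 5225⟩,
    ⟨[0, 1, 2, 3, 4, 5, 6], [0, 1, 3, 2, 4, 5, 6], 2, 3, 23229⟩,
    ⟨[0, 1, 2, 4, 3, 5, 6], [0, 1, 4, 2, 3, 5, 6], 2, 3, 23229⟩,
    ⟨[0, 1, 3, 4, 2, 5, 6], [0, 1, 3, 2, 4, 5, 6], 3, 4, 42⟩,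
    ⟨[0, 1, 3, 4, 2, 5, 6], [0, 1, 4, 3, 2, 5, 6], 2, 3, 23187⟩,
    ⟨[0, 1, 2, 3, 4, 6, 5], [0, 1, 3, 2, 4, 6, 5], 2, 3, 23571⟩,
    ⟨[0, 1, 2, 4, 3, 6, 5], [0, 1, 4, 2, 3, 6, 5], 2, 3, 24087⟩,
    ⟨[0, 1, 2, 3, 4, 6, 5], [0, 1, 2, 4, 3, 6, 5], 3, 4, 1158⟩,
    ⟨[0, 1, 4, 2, 3, 6, 5], [0, 1, 4, 3, 2, 6, 5], 3, 4, 516⟩,
    ⟨[0, 1, 3, 4, 2, 6, 5], [0, 1, 4, 3, 2, 6, 5], 2, 3, 22929⟩,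
    ⟨[0, 1, 2, 3, 5, 4, 6], [0, 1, 3, 2, 5, 4, 6], 2, 3, 23229⟩,
    ⟨[0, 1, 2, 3, 5, 6, 4], [0, 1, 3, 2, 5, 6, 4], 2, 3, 23529⟩,
    ⟨[0, 1, 2, 3, 6, 4, 5], [0, 1, 3, 2, 6, 4, 5], 2, 3, 23229⟩,
    ⟨[0, 1, 2, 3, 6, 5, 4], [0, 1, 3, 2, 6, 5, 4], 2, 3, 23529⟩,
    ⟨[0, 2, 1, 3, 4, 5, 6], [0, 2, 3, 1, 4, 5, 6], 2, 3, 23271⟩,
    ⟨[0, 2, 1, 4, 3, 5, 6], [0, 2, 4, 1, 3, 5, 6], 2, 3, 23187⟩,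
    ⟨[0, 2, 1, 3, 4, 5, 6], [0, 2, 1, 4, 3, 5, 6], 3, 4, 7558⟩,
    ⟨[0, 2, 1, 3, 4, 6, 5], [0, 2, 3, 1, 4, 6, 5], 2, 3, 23571⟩,
    ⟨[0, 2, 1, 4, 3, 6, 5], [0, 2, 4, 1, 3, 6, 5], 2, 3, 23487⟩,
    ⟨[0, 2, 1, 3, 4, 6, 5], [0, 2, 1, 4, 3, 6, 5], 3, 4, 8158⟩,
    ⟨[0, 2, 1, 3, 5, 4, 6], [0, 2, 3, 1, 5, 4, 6], 2, 3, 23229⟩,
    ⟨[0, 2, 1, 3, 5, 6, 4], [0, 2, 3, 1, 5, 6, 4], 2, 3, 23529⟩,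
    ⟨[0, 2, 1, 3, 6, 4, 5], [0, 2, 3, 1, 6, 4, 5], 2, 3, 23229⟩,
    ⟨[0, 2, 1, 3, 6, 5, 4], [0, 2, 3, 1, 6, 5, 4], 2, 3, 23529⟩,
    ⟨[0, 3, 1, 2, 4, 5, 6], [0, 3, 2, 1, 4, 5, 6], 2, 3, 30829⟩,
    ⟨[0, 3, 1, 2, 4, 6, 5], [0, 3, 2, 1, 4, 6, 5], 2, 3, 31129⟩,
    ⟨[0, 3, 1, 2, 5, 4, 6], [0, 3, 2, 1, 5, 4, 6], 2, 3, 30829⟩,
    ⟨[0, 3, 1, 2, 5, 6, 4], [0, 3, 2, 1, 5, 6, 4], 2, 3, 30679⟩,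
    ⟨[0, 3, 1, 2, 6, 4, 5], [0, 3, 2, 1, 6, 4, 5], 2, 3, 30829⟩,
    ⟨[0, 3, 1, 2, 6, 5, 4], [0, 3, 2, 1, 6, 5, 4], 2, 3, 30679⟩,
    ⟨[1, 0, 2, 3, 4, 5, 6], [1, 0, 3, 2, 4, 5, 6], 2, 3, 40458⟩,
    ⟨[1, 0, 2, 4, 3, 5, 6], [1, 0, 4, 2, 3, 5, 6], 2, 3, 46500⟩,
    ⟨[1, 0, 2, 3, 4, 5, 6], [1, 0, 2, 4, 3, 5, 6], 3, 4, 33396⟩,
    ⟨[1, 0, 3, 4, 2, 5, 6], [1, 0, 4, 3, 2, 5, 6], 2, 3, 20166⟩,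
    ⟨[1, 0, 3, 2, 4, 5, 6], [1, 0, 3, 4, 2, 5, 6], 3, 4, 7062⟩,
    ⟨[1, 0, 4, 2, 3, 5, 6], [1, 0, 4, 3, 2, 5, 6], 3, 4, 13104⟩,
    ⟨[1, 0, 2, 3, 4, 6, 5], [1, 0, 3, 2, 4, 6, 5], 2, 3, 41658⟩,
    ⟨[1, 0, 2, 4, 3, 6, 5], [1, 0, 4, 2, 3, 6, 5], 2, 3, 46500⟩,
    ⟨[1, 0, 2, 3, 4, 6, 5], [1, 0, 2, 4, 3, 6, 5], 3, 4, 33696⟩,
    ⟨[1, 0, 3, 4, 2, 6, 5], [1, 0, 4, 3, 2, 6, 5], 2, 3, 20766⟩,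
    ⟨[1, 0, 3, 2, 4, 6, 5], [1, 0, 3, 4, 2, 6, 5], 3, 4, 7962⟩,
    ⟨[1, 0, 4, 2, 3, 6, 5], [1, 0, 4, 3, 2, 6, 5], 3, 4, 12804⟩,
    ⟨[1, 0, 2, 3, 5, 4, 6], [1, 0, 3, 2, 5, 4, 6], 2, 3, 33354⟩,
    ⟨[1, 0, 2, 3, 5, 6, 4], [1, 0, 3, 2, 5, 6, 4], 2, 3, 33654⟩,
    ⟨[1, 0, 2, 3, 6, 4, 5], [1, 0, 3, 2, 6, 4, 5], 2, 3, 33354⟩,
    ⟨[1, 0, 2, 3, 6, 5, 4], [1, 0, 3, 2, 6, 5, 4], 2, 3, 33654⟩,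
    ⟨[1, 2, 0, 4, 3, 5, 6], [1, 2, 0, 3, 4, 5, 6], 3, 4, 15629⟩,
    ⟨[1, 2, 0, 4, 3, 6, 5], [1, 2, 0, 3, 4, 6, 5], 3, 4, 15329⟩,
    ⟨[2, 0, 1, 4, 3, 5, 6], [2, 0, 1, 3, 4, 5, 6], 3, 4, 13104⟩,
    ⟨[2, 0, 1, 4, 3, 6, 5], [2, 0, 1, 3, 4, 6, 5], 3, 4, 12804⟩,
    ⟨[2, 1, 0, 4, 3, 5, 6], [2, 1, 0, 3, 4, 5, 6], 3, 4, 5504⟩,
    ⟨[2, 1, 0, 4, 3, 6, 5], [2, 1, 0, 3, 4, 6, 5], 3, 4, 5204⟩]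

theorem vK12_ok : checkq 9 25 vK12 = true := by decide +kernel

end Pool.Agent.Q109.SO
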