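import Pool.Agent.Q109.SW.Walk

set_option autoImplicit false
set_option linter.unusedSectionVars false

/-!
Semiorders with an antichain of four elements.
-/

namespace Pool.Agent.Q109.SO

open Finset Pool.Agent.H13R3.WB Pool.Agent.H931R3.Bal

lemma anti_preimage {P : Type} [PartialOrder P] (a : P → Prop) (A : Finset P)
    (hA : IsAntichain (· ≤ ·) (A : Set P)) (h : ∀ x ∈ A, a x) :
    ∃ B : Finset {x // a x}, IsAntichain (· ≤ ·) (B : Set {x // a x}) ∧ B.card = A.card := by
  classical
  refine ⟨A.attach.image fun x => ⟨x.1, h x.1 x.2⟩, ?_, ?_⟩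
  · intro x hx y hy hxy hle
    simp only [coe_image, Set.mem_image, mem_coe, mem_attach, true_and] at hx hy
    obtain ⟨x', rfl⟩ := hx
    obtain ⟨y', rfl⟩ := hy
    refine hA x'.2 y'.2 ?_ hle
    intro h1
    exact hxy (Subtype.ext h1)
  · rw [card_image_of_injective, card_attach]
    intro x y hxy
    have := congrArg Subtype.val hxy
    exact Subtype.ext this

/-- The positions of an antichain of four elements. -/
lemma exists_wide {P : Type} [PartialOrder P] {n : ℕ} {e : ℕ → P} {r l : ℕ → ℕ}
    (R : Rep P n e r l) (A : Finset P) (hA : IsAntichain (· ≤ ·) (A : Set P))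
    (h4 : 4 ≤ A.card) : ∃ x, x < n ∧ x + 3 ≤ r x := by
  classical
  choose idx h1 h2 using R.surj
  have hinj : Function.Injective idx := fun x y h => by rw [← h2 x, ← h2 y, h]
  let I := A.image idx
  have hI : I.card = A.card := card_image_of_injective _ hinj
  have hne : I.Nonempty := by
    rw [← card_pos]; omega
  have m1 := I.min'_mem hne
  have m2 := I.max'_mem hne
  have hsub : I ⊆ Icc (I.min' hne) (I.max' hne) := by
    intro i hi
    rw [mem_Icc]
    exact ⟨I.min'_le _ hi, I.le_max' _ hi⟩
  have hc := card_le_card hsub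
  rw [Nat.card_Icc, hI] at hc
  obtain ⟨a, ha, ha'⟩ := mem_image.1 m1
  obtain ⟨b, hb, hb'⟩ := mem_image.1 m2
  refine ⟨I.min' hne, by rw [← ha']; exact h1 a, ?_⟩
  have hab : a ≠ b := by
    rintro rfl
    rw [ha'] at hb'
    omega
  have hnlt : ¬ e (idx a) < e (idx b) := by
    rw [h2, h2]
    intro h
    exact hA ha hb hab h.le
  rw [R.lt_iff _ (h1 a) _ (h1 b), ha', hb'] at hnlt
  omega

/-- **Semiorders with an antichain of four elements.** -/
theorem semi_wide : ∀ (N : ℕ) (P : Type) [Fintype P] [PartialOrder P],
    Fintype.card P = N → IsSemiorder P → (A : Finset P) → IsAntichain (· ≤ ·) (A : Set P) →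
    4 ≤ A.card → 9 / 25 ≤ balance P := by
  intro N
  induction N using Nat.strong_induction_on with
  | _ N ih =>
    intro P _ _ hN hS A hA h4
    have hnA : A.Nonempty := by
      rw [← card_pos]; omega
    obtain ⟨a0, ha0⟩ := hnA
    have : Nonempty P := ⟨a0⟩
    obtain ⟨e, r, l, R⟩ := exists_rep hS
    rw [hN] at R
    by_cases hirr : ∀ i, i + 1 < N → i < r i
    · exact wide_case R hirr (exists_wide R A hA h4)
    · push Not at hirr
      obtain ⟨i, hi, hri⟩ := hirr
      have hri' : r i = i := le_antisymm hri (R.le_r i (by omega))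
      let a : P → Prop := fun x => ∃ j ≤ i, e j = x
      have hab : ∀ x y, a x → ¬ a y → x < y := by
        rintro _ y ⟨j, hj, rfl⟩ hy
        obtain ⟨k, hk, rfl⟩ := R.surj y
        have hki : i < k := by
          by_contra hcon
          exact hy ⟨k, by omega, rfl⟩
        rw [R.lt_iff j (by omega) k hk]
        have := R.r_mono hj (by omega)
        omega
      let ε := lexIso a hab
      have nA : Nonempty {x // a x} := ⟨⟨e i, i, le_rfl, rfl⟩⟩
      have nB : Nonempty {x // ¬ a x} := by
        refine ⟨⟨e (i + 1), ?_⟩⟩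
        rintro ⟨j, hj, hje⟩
        have := R.inj j (by omega) (i + 1) hi hje
        omega
      have := Fintype.ofFinite {x // a x}
      have := Fintype.ofFinite {x // ¬ a x}
      have hcard : Fintype.card P = Fintype.card {x // a x} + Fintype.card {x // ¬ a x} := by
        rw [Fintype.card_congr ε.toEquiv]
        exact card_lexS
      have pA : 0 < Fintype.card {x // a x} := Fintype.card_pos
      have pB : 0 < Fintype.card {x // ¬ a x} := Fintype.card_pos
      refine le_trans ?_ (balance_iso ε.symm)
      by_cases c : ∀ x ∈ A, a x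
      · obtain ⟨B, hB, hc⟩ := anti_preimage a A hA c
        exact (ih _ (by omega) {x // a x} rfl (hS.subtype a) B hB (by omega)).trans
          balance_lex_left
      · push Not at c
        obtain ⟨y, hy, hya⟩ := c
        have c' : ∀ x ∈ A, ¬ a x := by
          intro x hx hxa
          have h := hab x y hxa hya
          exact hA hx hy h.ne h.le
        obtain ⟨B, hB, hc⟩ := anti_preimage (fun x => ¬ a x) A hA c'
        exact (ih _ (by omega) {x // ¬ a x} rfl (hS.subtype _) B hB (by omega)).trans
          balance_lex_right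

end Pool.Agent.Q109.SO
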