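import Pool.Agent.Q109.SO.Main

set_option autoImplicit false
set_option linter.unusedSectionVars false

/-!
Certificates for an arbitrary rational bound.
-/

namespace Pool.Agent.Q109.SO

open Finset Pool.Agent.H13R3.WB Pool.Agent.H931R3.Bal

def chkSq (p q : ℕ) (C : Cert) (s : List ℕ) : Bool :=
  !(cons C s) || decide (inf' C s + p * Lam C ≤ q * coef C s + outf C s)

def checkq (p q : ℕ) (C : Cert) : Bool :=
  decide (0 < Lam C) && (C.lam.all (fun p => C.free.contains (p.1, p.2.1)) &&
    (C.flow.all (okFlow C) && ((List.range C.k).permutations').all (chkSq p q C)))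

variable {P : Type} [PartialOrder P] [Fintype P]

theorem soundq {a b : ℕ} {C : Cert} (hC : checkq a b C = true) {w : ℕ → P} (hw : IsWin C w) :
    ∃ p ∈ C.lam, a * (LE P).card ≤ b * inv (w p.1) (w p.2.1) := by
  classical
  unfold checkq at hC
  simp only [Bool.and_eq_true, decide_eq_true_eq, List.all_eq_true] at hC
  obtain ⟨hLam, hlam, hflow, hchk⟩ := hC
  have hcons : ∀ f ∈ LE P, cons C (pat C.k w f) = true := by
    intro f hf
    unfold cons
    rw [List.all_eq_true]
    intro p hp
    obtain ⟨h1, h2, h3⟩ := hw.cmp p hp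
    rw [decide_eq_true_eq, pat_lt w f h1 h2]
    exact lt_of_mono ((mem_LE f).1 hf) h3
  have hpt : ∀ f ∈ LE P, inf' C (pat C.k w f) + a * Lam C ≤
      b * coef C (pat C.k w f) + outf C (pat C.k w f) := by
    intro f hf
    have h1 := hchk _ (pat_mem w hw.inj f)
    unfold chkSq at h1
    rw [hcons f hf] at h1
    simpa using h1
  have hsum := sum_le_sum hpt
  rw [sum_add_distrib, sum_add_distrib, sum_const, smul_eq_mul, ← mul_sum] at hsum
  have hin : ∑ f ∈ LE P, inf' C (pat C.k w f) =
      (C.flow.map fun e => e.y * NN C.k w e.t).sum := by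
    unfold inf' NN
    exact sum_flow (LE P) (pat C.k w) C.flow (fun e => e.t) (fun e => e.y)
  have hout : ∑ f ∈ LE P, outf C (pat C.k w f) =
      (C.flow.map fun e => e.y * NN C.k w e.s).sum := by
    unfold outf NN
    exact sum_flow (LE P) (pat C.k w) C.flow (fun e => e.s) (fun e => e.y)
  have hle : (C.flow.map fun e => e.y * NN C.k w e.s).sum ≤
      (C.flow.map fun e => e.y * NN C.k w e.t).sum :=
    List.sum_le_sum fun e he => Nat.mul_le_mul_left _ (NN_le hw (hflow e he))
  have hcoef : ∑ f ∈ LE P, coef C (pat C.k w f) =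
      (C.lam.map fun p => p.2.2 * inv (w p.1) (w p.2.1)).sum := by
    have h1 : ∀ f ∈ LE P, coef C (pat C.k w f) =
        (C.lam.map fun p => if f (w p.2.1) < f (w p.1) then p.2.2 else 0).sum := by
      intro f _
      unfold coef
      congr 1
      apply List.map_congr_left
      intro p hp
      have h2 := hlam p hp
      rw [List.contains_iff_mem] at h2
      obtain ⟨a1, a2, _⟩ := hw.free _ h2
      simp only [pat_lt w f a2 a1]
    rw [sum_congr rfl h1, sum_lam]
    rfl
  have hmain : a * Lam C * (LE P).card ≤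
      b * (C.lam.map fun p => p.2.2 * inv (w p.1) (w p.2.1)).sum := by
    rw [hin, hout, hcoef] at hsum
    have : (LE P).card * (a * Lam C) = a * Lam C * (LE P).card := by ring
    omega
  by_contra hcon
  push Not at hcon
  have h3 : ∀ L : List (ℕ × ℕ × ℕ), (∀ p ∈ L, b * inv (w p.1) (w p.2.1) < a * (LE P).card) →
      b * (L.map fun p => p.2.2 * inv (w p.1) (w p.2.1)).sum + (L.map fun p => p.2.2).sum ≤
        a * (L.map fun p => p.2.2).sum * (LE P).card := by
    intro L
    induction L with
    | nil => simp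
    | cons c L ih =>
      intro hL
      have h4 := ih fun p hp => hL p (List.mem_cons_of_mem _ hp)
      have h5 := hL c List.mem_cons_self
      simp only [List.map_cons, List.sum_cons]
      have h6 : c.2.2 * (b * inv (w c.1) (w c.2.1) + 1) ≤ c.2.2 * (a * (LE P).card) :=
        Nat.mul_le_mul_left _ h5
      nlinarith
  have h7 := h3 C.lam hcon
  have h8 : (C.lam.map fun p => p.2.2).sum = Lam C := rfl
  rw [h8] at h7
  omega

/-- A window with a valid certificate bounds the balance constant from below. -/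
theorem balance_of_winq {a b : ℕ} (hb : 0 < b) {C : Cert} (hC : checkq a b C = true) {w : ℕ → P}
    (hw : IsWin C w) : (a : ℝ) / b ≤ balance P := by
  obtain ⟨p, hp, h1⟩ := soundq hC hw
  have hlam : (p.1, p.2.1) ∈ C.free := by
    unfold checkq at hC
    simp only [Bool.and_eq_true, decide_eq_true_eq, List.all_eq_true] at hC
    have := hC.2.1 p hp
    rwa [List.contains_iff_mem] at this
  obtain ⟨a1, a2, a3, hD⟩ := hw.free _ hlam
  have hne : w p.1 ≠ w p.2.1 := fun h => a3 (hw.inj _ a1 _ a2 h)
  have h2 := inv_half hD hne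
  have hpos : (0 : ℝ) < (LE P).card := by exact_mod_cast LE_pos
  have hbR : (0 : ℝ) < b := by exact_mod_cast hb
  have e1 : prob P (w p.2.1) (w p.1) = (inv (w p.1) (w p.2.1) : ℝ) / (LE P).card := prob_eq_inv _ _
  have e2 := prob_add hne
  have h3 : (a : ℝ) / b ≤ prob P (w p.2.1) (w p.1) := by
    rw [e1, div_le_div_iff₀ hbR hpos]
    have : ((a * (LE P).card : ℕ) : ℝ) ≤ ((b * inv (w p.1) (w p.2.1) : ℕ) : ℝ) := by
      exact_mod_cast h1
    push_cast at this
    linarith
  have h4 : prob P (w p.2.1) (w p.1) ≤ 1 / 2 := by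
    rw [e1, div_le_div_iff₀ hpos (by norm_num)]
    have : ((2 * inv (w p.1) (w p.2.1) : ℕ) : ℝ) ≤ (((LE P).card : ℕ) : ℝ) := by
      exact_mod_cast h2
    push_cast at this
    linarith
  refine le_trans (le_min (by linarith) h3) (le_balance (w p.1) (w p.2.1))

variable {n : ℕ} {e : ℕ → P} {r l : ℕ → ℕ}

/-- A window given by a list of indices. -/
theorem of_listq {a b : ℕ} (R : Rep P n e r l) (C : Cert) (hs : Rep.okStatic C = true)
    (hb : 0 < b) (hC : checkq a b C = true) (L : List ℕ) (hL : L.length = C.k)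
    (h1 : ∀ x ∈ L, x < n) (h2 : L.Pairwise (· < ·))
    (h3 : ∀ p ∈ C.cmp, r (L.getD p.1 0) < L.getD p.2 0)
    (h4 : ∀ c ∈ C.comp, L.getD c.2.1 0 ≤ r (L.getD c.1 0) ∧
      ∀ z, ((r (L.getD c.1 0) < z ∧ z ≤ r (L.getD c.2.1 0)) ∨
        (z < l (L.getD c.2.1 0) ∧ l (L.getD c.1 0) ≤ z)) → ∃ t ∈ c.2.2, z = L.getD t 0) :
    (a : ℝ) / b ≤ balance P := by
  refine balance_of_winq hb hC (R.mkWin C hs (fun i => L.getD i 0) ?_ ?_ h3 h4)
  · intro i hi
    have hi' : i < L.length := by omega
    show L.getD i 0 < n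
    rw [List.getD_eq_getElem _ _ hi']
    exact h1 _ (List.getElem_mem hi')
  · intro i hi j hj hij
    have hi' : i < L.length := by omega
    have hj' : j < L.length := by omega
    show L.getD i 0 < L.getD j 0
    rw [List.getD_eq_getElem _ _ hi', List.getD_eq_getElem _ _ hj']
    exact List.pairwise_iff_getElem.1 h2 i j hi' hj' hij

end Pool.Agent.Q109.SO
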