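import Pool.Agent.Q109.SW.Data

set_option autoImplicit false
set_option linter.unusedSectionVars false
set_option linter.unusedTactic false
set_option linter.unreachableTactic false
set_option linter.unusedSimpArgs false

/-!
Windows near an antichain of four elements of a semiorder.
-/

namespace Pool.Agent.Q109.SO

open Finset Pool.Agent.H13R3.WB Pool.Agent.H931R3.Bal

variable {P : Type} [PartialOrder P] [Fintype P] {n : ℕ} {e : ℕ → P} {r l : ℕ → ℕ}

/-- The form of the bound. -/
theorem win925 (R : Rep P n e r l) (C : Cert) (hs : Rep.okStatic C = true)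
    (hC : checkq 9 25 C = true) (L : List ℕ) (hL : L.length = C.k)
    (h1 : ∀ x ∈ L, x < n) (h2 : L.Pairwise (· < ·))
    (h3 : ∀ p ∈ C.cmp, r (L.getD p.1 0) < L.getD p.2 0)
    (h4 : ∀ c ∈ C.comp, L.getD c.2.1 0 ≤ r (L.getD c.1 0) ∧
      ∀ z, ((r (L.getD c.1 0) < z ∧ z ≤ r (L.getD c.2.1 0)) ∨
        (z < l (L.getD c.2.1 0) ∧ l (L.getD c.1 0) ≤ z)) → ∃ t ∈ c.2.2, z = L.getD t 0) :
    9 / 25 ≤ balance P := by
  have := of_listq R C hs (by norm_num) hC L hL h1 h2 h3 h4
  exact_mod_cast this

theorem twin925 (R : Rep P n e r l) (x : ℕ) (hx : x + 1 < n) (h0 : x < r x)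
    (h1 : r (x + 1) = r x) (h2 : l (x + 1) = l x) : 9 / 25 ≤ balance P := by
  refine win925 R vtw (by decide) vtw_ok [x, x + 1] rfl ?_ ?_ ?_ ?_
  · simp; repeat' (first | omega | refine ⟨?_, ?_⟩ | intro _)
  · simp
  · simp [vtw]
  · simp [vtw]; repeat' (first | omega | refine ⟨?_, ?_⟩ | intro _)

/-- A passage of `r + l - 2 x` from one to zero at a place of width at least four. -/
theorem passage3 (R : Rep P n e r l)
    (htw : ∀ y, y + 1 < n → r y + l y + 1 ≤ r (y + 1) + l (y + 1))
    (x : ℕ) (hx : x + 1 < n) (hk : x + 3 ≤ r x) (h0 : r x + l x = 2 * x + 1)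
    (h1 : r (x + 1) + l (x + 1) = 2 * (x + 1)) :
    9 / 25 ≤ balance P ∨
      (x + 2 < n ∧ x + 5 ≤ r (x + 2) ∧ 2 * (x + 2) + 1 ≤ r (x + 2) + l (x + 2)) := by
  have r0 := R.r_lt x (by omega)
  have r1 := R.r_lt (x + 1) hx
  have r2 := R.r_lt (x + 2) (by omega)
  have m1 := R.r_mono (show x ≤ x + 1 by omega) hx
  have m2 := R.l_mono (show x ≤ x + 1 by omega) hx
  have m3 := R.r_mono (show x + 1 ≤ x + 2 by omega) (by omega)
  have m4 := R.l_mono (show x + 1 ≤ x + 2 by omega) (by omega)
  have g1 := R.gal x (by omega) (x + 1) (by omega)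
  have g2 := R.gal x (by omega) (x + 2) (by omega)
  have hc : (l (x + 1) = l x + 1 ∧ r (x + 1) = r x) ∨ (l (x + 1) = l x ∧ r (x + 1) = r x + 1) := by
    omega
  rcases hc with ⟨c1, c2⟩ | ⟨c1, c2⟩
  · -- step of `l`
    have g3 := R.gal (l x) (by omega) x (by omega)
    have g4 := R.gal (l x) (by omega) (x + 1) (by omega)
    by_cases hk4 : x + 4 ≤ r x
    · left
      refine win925 R vL4 (by decide) vL4_ok [l x, x - 2, x - 1, x, x + 1] rfl ?_ ?_ ?_ ?_
      · simp; repeat' (first | omega | refine ⟨?_, ?_⟩ | intro _)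
      · simp; repeat' (first | omega | refine ⟨?_, ?_⟩ | intro _)
      · simp [vL4]; repeat' (first | omega | refine ⟨?_, ?_⟩ | intro _)
      · simp [vL4]; repeat' (first | omega | refine ⟨?_, ?_⟩ | intro _)
    · obtain ⟨i, hi⟩ : ∃ i, x = i + 2 := ⟨x - 2, by omega⟩
      subst hi
      have hli : l (i + 2) = i := by omega
      have hrx : r (i + 2) = i + 5 := by omega
      rw [hli] at g3 g4
      have t := htw (i + 2 + 1) (by omega)
      rw [show i + 2 + 1 + 1 = i + 2 + 2 from rfl] at t
      have g5 := R.gal (i + 1) (by omega) (i + 2) (by omega)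
      have g6 := R.gal (i + 1) (by omega) (i + 2 + 1) (by omega)
      have g7 := R.gal (i + 1) (by omega) (i + 2 + 2) (by omega)
      have g8 := R.gal (i + 2) (by omega) (i + 2 + 2) (by omega)
      have m5 := R.r_mono (show i + 1 ≤ i + 2 by omega) (by omega)
      simp only [show i + 2 + 1 = i + 3 from rfl, show i + 2 + 2 = i + 4 from rfl] at *
      have hcase : (l (i + 4) = i + 1 ∧ r (i + 4) = i + 6) ∨
          (l (i + 4) = i + 1 ∧ r (i + 4) = i + 7) ∨
          (l (i + 4) = i + 2 ∧ r (i + 4) = i + 5) ∨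
          (l (i + 4) = i + 2 ∧ r (i + 4) = i + 6) ∨
          (l (i + 4) = i + 2 ∧ r (i + 4) = i + 7) ∨ i + 8 ≤ r (i + 4) := by
        omega
      rcases hcase with ⟨d1, d2⟩ | ⟨d1, d2⟩ | ⟨d1, d2⟩ | ⟨d1, d2⟩ | ⟨d1, d2⟩ | d
      · left
        refine win925 R vL10 (by decide) vL10_ok [i, i + 2, i + 3, i + 4, i + 6] rfl ?_ ?_ ?_ ?_
        · simp; repeat' (first | omega | refine ⟨?_, ?_⟩ | intro _)
        · simp
        · simp [vL10]; repeat' (first | omega | refine ⟨?_, ?_⟩ | intro _)
        · simp [vL10]; repeat' (first | omega | refine ⟨?_, ?_⟩ | intro _)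
      · left
        refine win925 R vK02 (by decide) vK02_ok
          [i, i + 1, i + 2, i + 3, i + 4, i + 6, i + 7] rfl ?_ ?_ ?_ ?_
        · simp; repeat' (first | omega | refine ⟨?_, ?_⟩ | intro _)
        · simp
        · simp [vK02]; repeat' (first | omega | refine ⟨?_, ?_⟩ | intro _)
        · simp [vK02]; repeat' (first | omega | refine ⟨?_, ?_⟩ | intro _)
      · left
        refine win925 R vL01 (by decide) vL01_ok [i, i + 1, i + 2, i + 3, i + 4] rfl ?_ ?_ ?_ ?_
        · simp; repeat' (first | omega | refine ⟨?_, ?_⟩ | intro _)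
        · simp
        · simp [vL01]; repeat' (first | omega | refine ⟨?_, ?_⟩ | intro _)
        · simp [vL01]; repeat' (first | omega | refine ⟨?_, ?_⟩ | intro _)
      · left
        refine win925 R vL11 (by decide) vL11_ok
          [i, i + 1, i + 2, i + 3, i + 4, i + 6] rfl ?_ ?_ ?_ ?_
        · simp; repeat' (first | omega | refine ⟨?_, ?_⟩ | intro _)
        · simp
        · simp [vL11]; repeat' (first | omega | refine ⟨?_, ?_⟩ | intro _)
        · simp [vL11]; repeat' (first | omega | refine ⟨?_, ?_⟩ | intro _)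
      · left
        refine win925 R vK12 (by decide) vK12_ok
          [i, i + 1, i + 2, i + 3, i + 4, i + 6, i + 7] rfl ?_ ?_ ?_ ?_
        · simp; repeat' (first | omega | refine ⟨?_, ?_⟩ | intro _)
        · simp
        · simp [vK12]; repeat' (first | omega | refine ⟨?_, ?_⟩ | intro _)
        · simp [vK12]; repeat' (first | omega | refine ⟨?_, ?_⟩ | intro _)
      · right
        omega
  · left
    refine win925 R vR3 (by decide) vR3_ok [x, x + 1, x + 2, x + 3, r x + 1] rfl ?_ ?_ ?_ ?_
    · simp; repeat' (first | omega | refine ⟨?_, ?_⟩ | intro _)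
    · simp; repeat' (first | omega | refine ⟨?_, ?_⟩ | intro _)
    · simp [vR3]
    · simp [vR3]; repeat' (first | omega | refine ⟨?_, ?_⟩ | intro _)

/-- The induction. -/
theorem wide_run (R : Rep P n e r l)
    (htw : ∀ y, y + 1 < n → r y + l y + 1 ≤ r (y + 1) + l (y + 1)) :
    ∀ (N x : ℕ), n - x ≤ N → x < n → x + 3 ≤ r x → 2 * x + 1 ≤ r x + l x →
      9 / 25 ≤ balance P := by
  intro N
  induction N with
  | zero => intro x h1 h2; omega
  | succ N ih =>
    intro x hN hx hk hD
    have r0 := R.r_lt x hx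
    have g1 := R.gal x hx (x + 1) (by omega)
    have g2 := R.gal x hx (x + 2) (by omega)
    have g3 := R.gal x hx (x + 3) (by omega)
    have t1 := htw x (by omega)
    have t2 := htw (x + 1) (by omega)
    have t3 := htw (x + 2) (by omega)
    rw [show x + 1 + 1 = x + 2 from rfl] at t2
    rw [show x + 2 + 1 = x + 3 from rfl] at t3
    by_cases c1 : r (x + 1) + l (x + 1) ≤ 2 * (x + 1)
    · rcases passage3 R htw x (by omega) hk (by omega) (by omega) with h | ⟨h1, h2, h3⟩
      · exact h
      · exact ih (x + 2) (by omega) h1 (by omega) h3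
    by_cases c2 : r (x + 2) + l (x + 2) ≤ 2 * (x + 2)
    · by_cases c3 : x + 4 ≤ r (x + 1)
      · rcases passage3 R htw (x + 1) (by omega) (by omega) (by omega) (by
          rw [show x + 1 + 1 = x + 2 from rfl]; omega) with h | ⟨h1, h2, h3⟩
        · exact h
        · exact ih (x + 1 + 2) (by omega) h1 (by omega) h3
      · -- `r (x + 1) = x + 3`
        have m1 := R.r_mono (show x ≤ x + 1 by omega) (by omega)
        have m2 := R.l_mono (show x + 1 ≤ x + 2 by omega) (by omega)
        have m3 := R.l_mono (show x + 2 ≤ x + 3 by omega) (by omega)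
        have m4 := R.r_mono (show x + 1 ≤ x + 2 by omega) (by omega)
        have m5 := R.r_mono (show x + 2 ≤ x + 3 by omega) (by omega)
        have e1 : r x = x + 3 := by omega
        have e2 : l (x + 1) = x := by omega
        have e3 : l (x + 2) = x := by omega
        have e4 : l (x + 3) = x := by omega
        have e5 : r (x + 2) = x + 4 := by omega
        have r3 := R.r_lt (x + 3) (by omega)
        rcases Nat.lt_or_ge (r (x + 3)) (x + 7) with h7 | h7
        · have hcase : r (x + 3) = x + 5 ∨ r (x + 3) = x + 6 := by omega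
          rcases hcase with d | d
          · refine win925 R vR10 (by decide) vR10_ok
              [x + 1, x + 2, x + 3, x + 4, x + 5] rfl ?_ ?_ ?_ ?_
            · simp; repeat' (first | omega | refine ⟨?_, ?_⟩ | intro _)
            · simp
            · simp [vR10]; repeat' (first | omega | refine ⟨?_, ?_⟩ | intro _)
            · simp [vR10]; repeat' (first | omega | refine ⟨?_, ?_⟩ | intro _)
          · refine win925 R vR20 (by decide) vR20_ok
              [x + 1, x + 2, x + 3, x + 4, x + 5, x + 6] rfl ?_ ?_ ?_ ?_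
            · simp; repeat' (first | omega | refine ⟨?_, ?_⟩ | intro _)
            · simp
            · simp [vR20]; repeat' (first | omega | refine ⟨?_, ?_⟩ | intro _)
            · simp [vR20]; repeat' (first | omega | refine ⟨?_, ?_⟩ | intro _)
        · exact ih (x + 3) (by omega) (by omega) (by omega) (by omega)
    by_cases c3 : r (x + 3) + l (x + 3) ≤ 2 * (x + 3)
    · rcases passage3 R htw (x + 2) (by omega) (by omega) (by omega) (by
        rw [show x + 2 + 1 = x + 3 from rfl]; omega) with h | ⟨h1, h2, h3⟩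
      · exact h
      · exact ih (x + 2 + 2) (by omega) h1 (by omega) h3
    · exact ih (x + 3) (by omega) (by omega) (by omega) (by omega)

/-- Irreducible semiorders with an antichain of four elements. -/
theorem wide_case (R : Rep P n e r l) (hirr : ∀ i, i + 1 < n → i < r i)
    (hw : ∃ x, x < n ∧ x + 3 ≤ r x) : 9 / 25 ≤ balance P := by
  classical
  by_cases htw : ∃ x, x + 1 < n ∧ r (x + 1) + l (x + 1) ≤ r x + l x
  · obtain ⟨x, hx, h⟩ := htw
    have m1 := R.r_mono (show x ≤ x + 1 by omega) hx
    have m2 := R.l_mono (show x ≤ x + 1 by omega) hx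
    exact twin925 R x hx (hirr x hx) (by omega) (by omega)
  · push Not at htw
    obtain ⟨hx, hk⟩ := Nat.find_spec hw
    have hmin : ∀ y, y < Nat.find hw → ¬ (y < n ∧ y + 3 ≤ r y) := fun y hy => Nat.find_min hw hy
    set x := Nat.find hw with hxdef
    refine wide_run R (fun y hy => by have := htw y hy; omega) (n - x) x le_rfl hx hk ?_
    have hlx : x ≤ l x + 2 := by
      by_contra hcon
      have h1 := hmin (x - 3) (by omega)
      have h2 := R.gal (x - 3) (by omega) x hx
      omega
    omega

end Pool.Agent.Q109.SO
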